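import Pool.Agent.R21.EK.Sep
import Pool.Agent.R21.EK.Dim

/-!
# Coding by binary sequences
-/

set_option autoImplicit false

open Finset
open scoped NNReal

namespace Pool.Agent.R21.EK

lemma factorial_lower (r : ℕ) (hr : 1 ≤ r) : 2 ^ ((r - 1) * 2 ^ (r - 1)) ≤ (2 ^ r).factorial := by
  obtain ⟨k, rfl⟩ := Nat.exists_eq_add_of_le' hr
  rw [Nat.add_sub_cancel]
  have h1 := Nat.pow_sub_le_descFactorial (2 ^ (k + 1)) (2 ^ k)
  have h2 : 2 ^ k ≤ 2 ^ (k + 1) := Nat.pow_le_pow_right (by norm_num) (by omega)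
  have h3 := Nat.factorial_mul_descFactorial h2
  have h4 : (2 ^ (k + 1)).descFactorial (2 ^ k) ≤ (2 ^ (k + 1)).factorial := by
    rw [← h3]
    exact Nat.le_mul_of_pos_left _ (Nat.factorial_pos _)
  refine le_trans ?_ (h1.trans h4)
  rw [pow_mul]
  apply Nat.pow_le_pow_left
  have : 2 ^ (k + 1) = 2 ^ k + 2 ^ k := by ring
  omega

namespace Par

variable (P : Par)

/-- the number of bits used at the scale `r` -/
def BB (r : ℕ) : ℕ := if P.r0 ≤ r then (r - 1) * 2 ^ (10 * r - 1) else 0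

/-- the number of bits used before the scale `r` -/
def bet (r : ℕ) : ℕ := ∑ s ∈ range r, P.BB s

lemma bet_succ (r : ℕ) : P.bet (r + 1) = P.bet r + P.BB r := sum_range_succ _ _

lemma bet_mono : Monotone P.bet := by
  apply monotone_nat_of_le_succ
  intro r
  rw [bet_succ]
  exact Nat.le_add_right _ _

lemma card_le (r : ℕ) : Fintype.card (Fin (P.BB r) → Fin 2) ≤
    Fintype.card ({g // g ∈ GG P.y P.lam r} → Equiv.Perm (Fin (2 ^ r))) := by
  rw [Fintype.card_fun, Fintype.card_fun, Fintype.card_fin, Fintype.card_fin, Fintype.card_perm,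
    Fintype.card_fin, Fintype.card_coe]
  unfold BB
  split_ifs with h
  · have h24 : 24 ≤ r := P.hr0.trans h
    have h1 := card_GG P.y P.lam r h24 P.lam_pos (P.h1 r h)
    have h2 := factorial_lower r (by omega)
    calc 2 ^ ((r - 1) * 2 ^ (10 * r - 1)) = (2 ^ ((r - 1) * 2 ^ (r - 1))) ^ (2 ^ (9 * r)) := by
          rw [← pow_mul, mul_assoc, ← pow_add]
          congr 3
          omega
      _ ≤ ((2 ^ r).factorial) ^ (2 ^ (9 * r)) := Nat.pow_le_pow_left h2 _
      _ ≤ _ := Nat.pow_le_pow_right (Nat.factorial_pos _) h1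
  · rw [pow_zero]
    exact Nat.one_le_pow _ _ (Nat.factorial_pos _)

/-- the chosen injection -/
noncomputable def inj (r : ℕ) : (Fin (P.BB r) → Fin 2) ↪
    ({g // g ∈ GG P.y P.lam r} → Equiv.Perm (Fin (2 ^ r))) :=
  (Function.Embedding.nonempty_of_card_le (P.card_le r)).some

open Classical in
/-- the configuration of a binary sequence -/
noncomputable def conf (b : ℕ → Fin 2) : Conf := fun r g =>
  if hg : g ∈ GG P.y P.lam r then P.inj r (fun i => b (P.bet r + i)) ⟨g, hg⟩ else 1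

lemma exists_scale (n : ℕ) : ∃ r, n < P.bet (r + 1) := by
  refine ⟨max P.r0 n, ?_⟩
  rw [bet_succ]
  have h24 := P.hr0
  have : n < P.BB (max P.r0 n) := by
    unfold BB
    rw [if_pos (le_max_left _ _)]
    have h1 : 24 ≤ max P.r0 n := h24.trans (le_max_left _ _)
    have h2 : n ≤ max P.r0 n := le_max_right _ _
    have h3 : 2 ≤ 2 ^ (10 * max P.r0 n - 1) := by
      calc 2 = 2 ^ 1 := by norm_num
        _ ≤ _ := Nat.pow_le_pow_right (by norm_num) (by omega)
    calc n < (max P.r0 n - 1) * 2 := by omega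
      _ ≤ _ := Nat.mul_le_mul_left _ h3
  omega

lemma exists_group (b b' : ℕ → Fin 2) (n : ℕ) (hpre : ∀ i < n, b i = b' i) (hn : b n ≠ b' n) :
    ∃ r g : ℕ, P.r0 ≤ r ∧ P.bet r ≤ n ∧ g ∈ GG P.y P.lam r ∧
      (∀ l < g * 2 ^ r, P.conf b (rr l) (l / 2 ^ rr l) = P.conf b' (rr l) (l / 2 ^ rr l)) ∧
      P.conf b r g ≠ P.conf b' r g := by
  classical
  set r := Nat.find (P.exists_scale n) with hr
  have hr1 : n < P.bet (r + 1) := Nat.find_spec (P.exists_scale n)
  have hr2 : P.bet r ≤ n := by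
    rcases Nat.eq_zero_or_pos r with h0 | hpos
    · rw [h0]; simp [bet]
    · obtain ⟨k, hk⟩ := Nat.exists_eq_succ_of_ne_zero hpos.ne'
      have := Nat.find_min (P.exists_scale n) (m := k) (by omega)
      rw [hk]
      exact not_lt.1 this
  have hr0 : P.r0 ≤ r := by
    by_contra hcon
    have h1 : P.BB r = 0 := by unfold BB; rw [if_neg hcon]
    rw [bet_succ, h1] at hr1
    omega
  -- equality at smaller scales
  have hsmall : ∀ r' < r, ∀ g, P.conf b r' g = P.conf b' r' g := by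
    intro r' hr' g
    unfold conf
    have h1 : (fun i : Fin (P.BB r') => b (P.bet r' + i)) =
        (fun i : Fin (P.BB r') => b' (P.bet r' + i)) := by
      funext i
      apply hpre
      have h2 : P.bet (r' + 1) ≤ P.bet r := P.bet_mono hr'
      rw [bet_succ] at h2
      have := i.2
      omega
    rw [h1]
  have hdiff : P.inj r (fun i => b (P.bet r + i)) ≠ P.inj r (fun i => b' (P.bet r + i)) := by
    intro h
    have h1 := (P.inj r).injective h
    rw [bet_succ] at hr1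
    have h2 := congrFun h1 ⟨n - P.bet r, by omega⟩
    simp only at h2
    rw [Nat.add_sub_cancel' hr2] at h2
    exact hn h2
  have hex : ∃ g, P.conf b r g ≠ P.conf b' r g := by
    obtain ⟨⟨g, hg⟩, h⟩ := Function.ne_iff.1 hdiff
    refine ⟨g, ?_⟩
    unfold conf
    rw [dif_pos hg, dif_pos hg]
    exact h
  set g := Nat.find hex with hgdef
  have hg1 : P.conf b r g ≠ P.conf b' r g := Nat.find_spec hex
  have hgG : g ∈ GG P.y P.lam r := by
    by_contra hcon
    apply hg1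
    unfold conf
    rw [dif_neg hcon, dif_neg hcon]
  refine ⟨r, g, hr0, hr2, hgG, ?_, hg1⟩
  intro l hl
  rcases lt_trichotomy (rr l) r with h | h | h
  · exact hsmall _ h _
  · rw [h]
    have h1 : l / 2 ^ r < g := Nat.div_lt_of_lt_mul (by rwa [mul_comm] at hl)
    have h2 := Nat.find_min hex h1
    push Not at h2
    exact h2
  · exfalso
    have h24 := P.hr0
    have hl0 : l ≠ 0 := by
      rintro rfl
      simp [rr] at h
    have h1 := pow_rr_le hl0
    obtain ⟨-, -, h2⟩ := P.level_range hgG 0 (by positivity)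
    have h3 : 2 ^ (10 * r + 10) ≤ 2 ^ (10 * rr l) := Nat.pow_le_pow_right (by norm_num) (by omega)
    have h4 : (g + 1) * 2 ^ r = g * 2 ^ r + 2 ^ r := by ring
    have h5 : 0 < 2 ^ r := by positivity
    omega

/-- the constant in the exponent -/
noncomputable def AA : ℝ := 1024 * (-Real.log P.y) + 10246

lemma AA_pos : 0 < P.AA := by
  unfold AA
  have := Real.log_nonpos P.hy0.le P.hy1
  linarith

lemma ww_lower (N : ℕ) (hN : 0 < N) :
    Real.exp (-(N * (-Real.log P.y + Real.log N))) ≤ ww P.y N := by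
  have hN' : (0 : ℝ) < N := by exact_mod_cast hN
  have h1 : Real.exp (-(N * (-Real.log P.y + Real.log N))) = P.y ^ N / (N : ℝ) ^ N := by
    rw [show -(N * (-Real.log P.y + Real.log N)) = N * Real.log P.y - N * Real.log N by ring,
      Real.exp_sub, mul_comm (N : ℝ) (Real.log P.y), mul_comm (N : ℝ) (Real.log N),
      Real.exp_mul, Real.exp_mul, Real.exp_log P.hy0, Real.exp_log hN', Real.rpow_natCast,
      Real.rpow_natCast]
  rw [h1]
  unfold ww
  apply div_le_div_of_nonneg_left (pow_nonneg P.hy0.le _) (by positivity)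
  exact_mod_cast Nat.factorial_le_pow N

lemma sep_lower (r g : ℕ) (hr : 24 ≤ r) (hg : g ∈ GG P.y P.lam r) :
    Real.exp (-(P.AA * ((r + 1) * 2 ^ (10 * r)))) ≤
      ww P.y ((g + 1) * 2 ^ r) * E r ^ (2 ^ r) := by
  obtain ⟨-, -, h2⟩ := P.level_range hg 0 (by positivity)
  have hN : 0 < 2 ^ (10 * r + 10) := by positivity
  have h3 := (P.ww_lower (2 ^ (10 * r + 10)) hN).trans (ww_anti P.hy0 P.hy1 h2)
  have hlog2 : Real.log 2 ≤ 1 := by
    have := Real.log_two_lt_d9
    linarith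
  have hlog2' : 0 < Real.log 2 := Real.log_pos (by norm_num)
  have h4 : E r ^ (2 ^ r) = Real.exp (-(2 ^ r * (6 * r * Real.log 2))) := by
    unfold E
    rw [← Real.exp_log (show (0 : ℝ) < ((2 : ℝ) ^ (6 * r))⁻¹ by positivity), ← Real.exp_nat_mul,
      Real.log_inv, Real.log_pow]
    push_cast
    ring_nf
  rw [h4]
  refine le_trans ?_ (mul_le_mul_of_nonneg_right h3 (Real.exp_pos _).le)
  rw [← Real.exp_add]
  apply Real.exp_le_exp.2
  have h5 : Real.log (((2 ^ (10 * r + 10) : ℕ) : ℝ)) = (10 * r + 10) * Real.log 2 := by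
    push_cast
    rw [Real.log_pow]
    push_cast
    ring
  rw [h5]
  push_cast
  have hY : 0 ≤ -Real.log P.y := by
    have := Real.log_nonpos P.hy0.le P.hy1
    linarith
  set Y := -Real.log P.y with hYdef
  have h6 : (2 : ℝ) ^ (10 * r + 10) = 1024 * 2 ^ (10 * r) := by
    rw [pow_add]; norm_num; ring
  rw [h6]
  unfold AA
  rw [← hYdef]
  have h7 : (2 : ℝ) ^ r ≤ 2 ^ (10 * r) := pow_le_pow_right₀ (by norm_num) (by omega)
  have h8 : (0 : ℝ) < 2 ^ r := by positivity
  set X := (2 : ℝ) ^ (10 * r) with hX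
  have hX0 : 0 < X := by positivity
  have hr' : (0 : ℝ) ≤ r := by positivity
  have h9 : 1024 * X * (Y + (10 * r + 10) * Real.log 2) ≤ 1024 * X * (Y * (r + 1) + (10 * r + 10)) := by
    apply mul_le_mul_of_nonneg_left _ (by positivity)
    have : Y ≤ Y * (r + 1) := by nlinarith
    have : (10 * (r : ℝ) + 10) * Real.log 2 ≤ 10 * r + 10 := by nlinarith
    linarith
  have h10 : (2 : ℝ) ^ r * (6 * r * Real.log 2) ≤ X * (6 * (r + 1)) := by
    have h11 : 6 * (r : ℝ) * Real.log 2 ≤ 6 * (r + 1) := by nlinarith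
    have h12 : 0 ≤ 6 * (r : ℝ) * Real.log 2 := by positivity
    calc (2 : ℝ) ^ r * (6 * r * Real.log 2) ≤ X * (6 * r * Real.log 2) := by gcongr
      _ ≤ X * (6 * (r + 1)) := by gcongr
  nlinarith [h9, h10]

theorem dimH_pos (T : Set ℝ) (hT : ∀ σ : Conf, P.FF σ ∈ T) : 0 < dimH T := by
  set s : ℝ := 1 / (8192 * P.AA) with hs
  have hA := P.AA_pos
  have hs0 : 0 < s := by positivity
  set C : ℝ := Real.exp (s * (P.AA * ((P.r0 + 1) * 2 ^ (10 * P.r0)))) with hC
  have hC1 : 1 ≤ C := by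
    rw [hC]
    apply Real.one_le_exp
    positivity
  apply dimH_pos_of_code (fun b => P.FF (P.conf b)) T (fun b => hT _) ⟨s, hs0.le⟩ ⟨C, by linarith⟩
    (by exact_mod_cast hs0)
  intro b b' n hpre hn
  obtain ⟨r, g, hr0, hbet, hg, hagree, hne⟩ := P.exists_group b b' n hpre hn
  have h24 : 24 ≤ r := P.hr0.trans hr0
  have h1 := (P.sep_lower r g h24 hg).trans (P.sep (P.conf b) (P.conf b') r g hr0 hg hagree hne)
  have h2 : Real.exp (-(s * (P.AA * ((r + 1) * 2 ^ (10 * r))))) ≤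
      |P.FF (P.conf b) - P.FF (P.conf b')| ^ s := by
    have := Real.rpow_le_rpow (Real.exp_pos _).le h1 hs0.le
    refine le_trans (le_of_eq ?_) this
    rw [← Real.exp_mul]
    ring_nf
  show ((2 : ℝ) ^ n)⁻¹ ≤ C * |P.FF (P.conf b) - P.FF (P.conf b')| ^ s
  have h3 : ((2 : ℝ) ^ n)⁻¹ ≤ ((2 : ℝ) ^ (P.bet r))⁻¹ := by
    apply inv_anti₀ (by positivity)
    exact pow_le_pow_right₀ (by norm_num) hbet
  refine le_trans h3 (le_trans ?_ (mul_le_mul_of_nonneg_left h2 (by linarith)))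
  rcases eq_or_lt_of_le hr0 with heq | hlt
  · -- the first scale
    subst heq
    rw [hC, ← Real.exp_add]
    rw [add_neg_cancel, Real.exp_zero]
    exact inv_le_one_of_one_le₀ (one_le_pow₀ (by norm_num))
  · obtain ⟨ρ, rfl⟩ : ∃ ρ, r = ρ + 1 := ⟨r - 1, by omega⟩
    have hρ : P.r0 ≤ ρ := by omega
    have hρ24 : 24 ≤ ρ := P.hr0.trans hρ
    have hb : (ρ - 1) * 2 ^ (10 * ρ - 1) ≤ P.bet (ρ + 1) := by
      rw [bet_succ]
      have : P.BB ρ = (ρ - 1) * 2 ^ (10 * ρ - 1) := by unfold BB; rw [if_pos hρ]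
      omega
    have h4 : ((2 : ℝ) ^ (P.bet (ρ + 1)))⁻¹ ≤
        Real.exp (-(s * (P.AA * (((ρ + 1 : ℕ) + 1) * 2 ^ (10 * (ρ + 1)))))) := by
      rw [Real.exp_neg]
      apply inv_anti₀ (Real.exp_pos _)
      rw [← Real.exp_log (show (0 : ℝ) < (2 : ℝ) ^ (P.bet (ρ + 1)) by positivity)]
      apply Real.exp_le_exp.2
      rw [Real.log_pow]
      have hlog2 : 0.6931471803 < Real.log 2 := Real.log_two_gt_d9
      have h5 : (((ρ - 1) * 2 ^ (10 * ρ - 1) : ℕ) : ℝ) ≤ (P.bet (ρ + 1) : ℝ) := by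
        exact_mod_cast hb
      have h6 : (((ρ - 1) * 2 ^ (10 * ρ - 1) : ℕ) : ℝ) = ((ρ : ℝ) - 1) * (2 ^ (10 * ρ) / 2) := by
        push_cast [Nat.cast_sub (show 1 ≤ ρ by omega)]
        congr 1
        rw [eq_div_iff (by norm_num), ← pow_succ]
        congr 1
        omega
      have h7 : s * P.AA = 1 / 8192 := by
        rw [hs]; field_simp
      have h8 : (2 : ℝ) ^ (10 * (ρ + 1)) = 1024 * 2 ^ (10 * ρ) := by
        rw [mul_add, pow_add]; norm_num; ring
      rw [← mul_assoc, h7, h8]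
      push_cast
      have hX : (0 : ℝ) < 2 ^ (10 * ρ) := by positivity
      have hρr : (24 : ℝ) ≤ ρ := by exact_mod_cast hρ24
      have h9 : ((ρ : ℝ) - 1) * (2 ^ (10 * ρ) / 2) * 0.69 ≤ (P.bet (ρ + 1) : ℝ) * Real.log 2 := by
        have h10 : 0 ≤ ((ρ : ℝ) - 1) * (2 ^ (10 * ρ) / 2) := by
          apply mul_nonneg (by linarith) (by positivity)
        calc ((ρ : ℝ) - 1) * (2 ^ (10 * ρ) / 2) * 0.69
            ≤ ((ρ : ℝ) - 1) * (2 ^ (10 * ρ) / 2) * Real.log 2 := by
              apply mul_le_mul_of_nonneg_left (by linarith) h10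
          _ ≤ _ := by
              apply mul_le_mul_of_nonneg_right _ (by linarith)
              rw [← h6]; exact h5
      refine le_trans ?_ h9
      nlinarith
    refine le_trans h4 ?_
    calc Real.exp (-(s * (P.AA * (((ρ + 1 : ℕ) + 1) * 2 ^ (10 * (ρ + 1))))))
        = 1 * Real.exp (-(s * (P.AA * (((ρ + 1 : ℕ) + 1) * 2 ^ (10 * (ρ + 1)))))) := (one_mul _).symm
      _ ≤ _ := mul_le_mul_of_nonneg_right hC1 (Real.exp_pos _).le

end Par

end Pool.Agent.R21.EK
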