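import Mathlib

/-!
# Most groups of levels are good
-/

set_option autoImplicit false

open Finset

namespace Pool.Agent.R21.EK

/-- minus the logarithm of `y ^ i / i!` -/
noncomputable def aa (y : ℝ) (i : ℕ) : ℝ := Real.log (i.factorial : ℝ) - i * Real.log y

/-- the difference of `aa` at distance `d` -/
noncomputable def ff (y : ℝ) (d i : ℕ) : ℝ := aa y (i + d) - aa y i

lemma aa_succ (y : ℝ) (i : ℕ) : aa y (i + 1) - aa y i = Real.log ((i : ℝ) + 1) - Real.log y := by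
  unfold aa
  rw [Nat.factorial_succ]
  push_cast
  rw [Real.log_mul (by positivity) (by positivity)]
  ring

lemma ff_succ (y : ℝ) (d i : ℕ) :
    ff y d (i + 1) - ff y d i = Real.log ((i : ℝ) + d + 1) - Real.log ((i : ℝ) + 1) := by
  have h1 := aa_succ y (i + d)
  have h2 := aa_succ y i
  unfold ff
  rw [show i + 1 + d = i + d + 1 by ring]
  push_cast at h1 ⊢
  linarith

lemma ff_lower (y : ℝ) (d i : ℕ) (hd : 1 ≤ d) :
    1 / ((i : ℝ) + 2) ≤ ff y d (i + 1) - ff y d i := by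
  rw [ff_succ]
  have h1 : Real.log ((i : ℝ) + 2) - Real.log ((i : ℝ) + 1) ≤
      Real.log ((i : ℝ) + d + 1) - Real.log ((i : ℝ) + 1) := by
    have : Real.log ((i : ℝ) + 2) ≤ Real.log ((i : ℝ) + d + 1) := by
      apply Real.log_le_log (by positivity)
      have : (1 : ℝ) ≤ d := by exact_mod_cast hd
      linarith
    linarith
  refine le_trans ?_ h1
  rw [← Real.log_div (by positivity) (by positivity)]
  have h2 := Real.one_sub_inv_le_log_of_pos (x := ((i : ℝ) + 2) / ((i : ℝ) + 1)) (by positivity)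
  refine le_trans (le_of_eq ?_) h2
  rw [inv_div]
  field_simp
  ring

lemma ff_upper (y : ℝ) (d i : ℕ) :
    ff y d (i + 1) - ff y d i ≤ d / ((i : ℝ) + 1) := by
  rw [ff_succ, ← Real.log_div (by positivity) (by positivity)]
  have h2 := Real.log_le_sub_one_of_pos (x := ((i : ℝ) + d + 1) / ((i : ℝ) + 1)) (by positivity)
  refine le_trans h2 (le_of_eq ?_)
  field_simp
  ring

/-- lower slope on an initial segment -/
lemma ff_lower_slope (y : ℝ) (d N : ℕ) (hd : 1 ≤ d) (i j : ℕ) (hij : i ≤ j) (hj : j ≤ N) :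
    ((j : ℝ) - i) / ((N : ℝ) + 2) ≤ ff y d j - ff y d i := by
  induction j, hij using Nat.le_induction with
  | base => simp
  | succ j hij ih =>
    have h1 := ih (by omega)
    have h2 := ff_lower y d j hd
    have h3 : 1 / ((N : ℝ) + 2) ≤ 1 / ((j : ℝ) + 2) := by
      apply one_div_le_one_div_of_le (by positivity)
      have : (j : ℝ) ≤ N := by exact_mod_cast (by omega : j ≤ N)
      linarith
    have h4 : ((j : ℝ) + 1 - i) / ((N : ℝ) + 2) = ((j : ℝ) - i) / ((N : ℝ) + 2) + 1 / ((N : ℝ) + 2) := by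
      rw [← add_div]; ring_nf
    push_cast
    rw [h4]
    linarith

/-- upper slope on a final segment -/
lemma ff_upper_slope (y : ℝ) (d N : ℕ) (i j : ℕ) (hij : i ≤ j) (hi : N ≤ i) :
    ff y d j - ff y d i ≤ ((j : ℝ) - i) * (d / ((N : ℝ) + 1)) := by
  induction j, hij using Nat.le_induction with
  | base => simp
  | succ j hij ih =>
    have h2 := ff_upper y d j
    have h3 : (d : ℝ) / ((j : ℝ) + 1) ≤ d / ((N : ℝ) + 1) := by
      apply div_le_div_of_nonneg_left (by positivity) (by positivity)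
      have : (N : ℝ) ≤ j := by exact_mod_cast (by omega : N ≤ j)
      linarith
    push_cast
    have h4 : ((j : ℝ) + 1 - i) * (d / ((N : ℝ) + 1)) =
      ((j : ℝ) - i) * (d / ((N : ℝ) + 1)) + d / ((N : ℝ) + 1) := by ring
    rw [h4]
    linarith

open Classical in
/-- the levels of scale `r` where `ff y d` is close to a multiple of `lam` -/
noncomputable def SS (y lam : ℝ) (r d : ℕ) : Finset ℕ :=
  (Ioc (2 ^ (10 * r)) (2 ^ (10 * r + 10))).filter
    (fun i => ∃ k : ℤ, |ff y d i - k * lam| < ((2 : ℝ) ^ (5 * r))⁻¹)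

lemma card_fiber (y lam : ℝ) (r d : ℕ) (hd : 1 ≤ d) (k : ℤ) (T : Finset ℕ)
    (hT : ∀ i ∈ T, i ≤ 2 ^ (10 * r + 10) ∧ |ff y d i - k * lam| < ((2 : ℝ) ^ (5 * r))⁻¹) :
    T.card ≤ 2 ^ (5 * r + 12) := by
  rcases T.eq_empty_or_nonempty with h0 | hne
  · simp [h0]
  set m := T.min' hne with hm
  have hmT : m ∈ T := T.min'_mem hne
  have hsub : T ⊆ Ico m (m + 2 ^ (5 * r + 12)) := by
    intro i hi
    have hmi : m ≤ i := T.min'_le i hi
    rw [mem_Ico]
    refine ⟨hmi, ?_⟩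
    obtain ⟨hi1, hi2⟩ := hT i hi
    obtain ⟨hm1, hm2⟩ := hT m hmT
    have h1 := ff_lower_slope y d (2 ^ (10 * r + 10)) hd m i hmi hi1
    rw [abs_lt] at hi2 hm2
    have h2 : ff y d i - ff y d m < 2 * ((2 : ℝ) ^ (5 * r))⁻¹ := by linarith [hi2.2, hm2.1]
    have h3 : ((i : ℝ) - m) / (((2 ^ (10 * r + 10) : ℕ) : ℝ) + 2) < 2 * ((2 : ℝ) ^ (5 * r))⁻¹ :=
      lt_of_le_of_lt h1 h2
    rw [div_lt_iff₀ (by positivity)] at h3
    have h4 : (((2 ^ (10 * r + 10) : ℕ) : ℝ) + 2) ≤ 2 ^ (10 * r + 11) := by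
      push_cast
      have : (2 : ℝ) ≤ 2 ^ (10 * r + 10) := by
        calc (2 : ℝ) = 2 ^ 1 := by norm_num
          _ ≤ _ := pow_le_pow_right₀ (by norm_num) (by omega)
      rw [pow_succ (2 : ℝ) (10 * r + 10)]
      linarith
    have h5 : 2 * ((2 : ℝ) ^ (5 * r))⁻¹ * (((2 ^ (10 * r + 10) : ℕ) : ℝ) + 2) ≤
        2 ^ (5 * r + 12) := by
      calc 2 * ((2 : ℝ) ^ (5 * r))⁻¹ * (((2 ^ (10 * r + 10) : ℕ) : ℝ) + 2)
          ≤ 2 * ((2 : ℝ) ^ (5 * r))⁻¹ * 2 ^ (10 * r + 11) := by gcongr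
        _ = 2 ^ (5 * r + 12) := by
          rw [show 10 * r + 11 = 5 * r + (5 * r + 11) by ring, pow_add (2 : ℝ) (5 * r) (5 * r + 11),
            show 5 * r + 12 = (5 * r + 11) + 1 by ring, pow_succ (2 : ℝ) (5 * r + 11)]
          field_simp
    have h6 : (i : ℝ) < ((m + 2 ^ (5 * r + 12) : ℕ) : ℝ) := by
      push_cast
      linarith
    exact_mod_cast h6
  calc T.card ≤ (Ico m (m + 2 ^ (5 * r + 12))).card := card_le_card hsub
    _ = 2 ^ (5 * r + 12) := by simp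

lemma card_SS (y lam : ℝ) (r d : ℕ) (hd : 1 ≤ d) (hdr : d ≤ 2 ^ r) (hlam : 0 < lam)
    (hl : 1 ≤ lam * 2 ^ r) :
    (SS y lam r d).card ≤ 2 ^ (2 * r + 12) * 2 ^ (5 * r + 12) := by
  classical
  -- choose the multiples
  have hch : ∀ i : ℕ, ∃ k : ℤ, i ∈ SS y lam r d → |ff y d i - k * lam| < ((2 : ℝ) ^ (5 * r))⁻¹ := by
    intro i
    by_cases hi : i ∈ SS y lam r d
    · obtain ⟨k, hk⟩ := (mem_filter.1 hi).2
      exact ⟨k, fun _ => hk⟩
    · exact ⟨0, fun h => absurd h hi⟩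
  choose κ hκ using hch
  have h1 : (SS y lam r d).card ≤ 2 ^ (5 * r + 12) * ((SS y lam r d).image κ).card := by
    apply card_le_mul_card_image
    intro k hk
    apply card_fiber y lam r d hd k
    intro i hi
    rw [mem_filter] at hi
    refine ⟨(mem_Ioc.1 (mem_filter.1 hi.1).1).2, ?_⟩
    have := hκ i hi.1
    rwa [hi.2] at this
  have h2 : ((SS y lam r d).image κ).card ≤ 2 ^ (2 * r + 12) := by
    set N : ℕ := 2 ^ (10 * r) with hN
    set A : ℝ := ff y d N with hA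
    have hsub : (SS y lam r d).image κ ⊆
        Icc ⌈(A - 1) / lam⌉ ⌊(A + 2 ^ (r + 10) + 1) / lam⌋ := by
      intro k hk
      obtain ⟨i, hi, rfl⟩ := mem_image.1 hk
      have hi' := mem_Ioc.1 (mem_filter.1 hi).1
      have hk1 := hκ i hi
      have hth : ((2 : ℝ) ^ (5 * r))⁻¹ ≤ 1 := by
        apply inv_le_one_of_one_le₀
        exact one_le_pow₀ (by norm_num)
      rw [abs_lt] at hk1
      have hlow : A ≤ ff y d i := by
        have := ff_lower_slope y d i hd N i (by omega) le_rfl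
        have h0 : (0 : ℝ) ≤ ((i : ℝ) - N) / ((i : ℝ) + 2) := by
          apply div_nonneg _ (by positivity)
          have : (N : ℝ) ≤ i := by exact_mod_cast (by omega : N ≤ i)
          linarith
        linarith
      have hup : ff y d i ≤ A + 2 ^ (r + 10) := by
        have h3 := ff_upper_slope y d N N i (by omega) le_rfl
        have h4 : ((i : ℝ) - N) * (d / ((N : ℝ) + 1)) ≤ 2 ^ (r + 10) := by
          have h5 : (i : ℝ) - N ≤ 2 ^ (10 * r + 10) := by
            have h6 : (i : ℝ) ≤ 2 ^ (10 * r + 10) := by exact_mod_cast hi'.2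
            have h7 : (0 : ℝ) ≤ N := by positivity
            linarith
          have h6 : (d : ℝ) / ((N : ℝ) + 1) ≤ 2 ^ r / 2 ^ (10 * r) := by
            have h7 : (d : ℝ) ≤ 2 ^ r := by exact_mod_cast hdr
            have h8 : ((2 : ℝ) ^ (10 * r)) ≤ (N : ℝ) + 1 := by
              rw [hN]; push_cast; linarith
            gcongr
          have h9 : (0 : ℝ) ≤ (d : ℝ) / ((N : ℝ) + 1) := by positivity
          calc ((i : ℝ) - N) * (d / ((N : ℝ) + 1)) ≤ 2 ^ (10 * r + 10) * (d / ((N : ℝ) + 1)) := by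
                gcongr
            _ ≤ 2 ^ (10 * r + 10) * (2 ^ r / 2 ^ (10 * r)) := by gcongr
            _ = 2 ^ (r + 10) := by
              rw [pow_add (2 : ℝ) (10 * r) 10, pow_add (2 : ℝ) r 10]
              field_simp
        linarith
      rw [mem_Icc]
      constructor
      · rw [Int.ceil_le, div_le_iff₀ hlam]
        linarith
      · rw [Int.le_floor, le_div_iff₀ hlam]
        linarith
    refine le_trans (card_le_card hsub) ?_
    rw [Int.card_Icc]
    have h3 : (⌊(A + 2 ^ (r + 10) + 1) / lam⌋ : ℝ) ≤ (A + 2 ^ (r + 10) + 1) / lam := Int.floor_le _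
    have h4 : (A - 1) / lam ≤ (⌈(A - 1) / lam⌉ : ℝ) := Int.le_ceil _
    have h5 : ((⌊(A + 2 ^ (r + 10) + 1) / lam⌋ + 1 - ⌈(A - 1) / lam⌉ : ℤ) : ℝ) ≤
        2 ^ (2 * r + 12) := by
      push_cast
      have h6 : (⌊(A + 2 ^ (r + 10) + 1) / lam⌋ : ℝ) + 1 - ⌈(A - 1) / lam⌉ ≤
          (2 ^ (r + 10) + 2) / lam + 1 := by
        have : (A + 2 ^ (r + 10) + 1) / lam - (A - 1) / lam = (2 ^ (r + 10) + 2) / lam := by
          rw [← sub_div]; ring_nf
        linarith
      refine le_trans h6 ?_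
      have h7 : 1 / lam ≤ 2 ^ r := by
        rw [div_le_iff₀ hlam]; linarith
      have h8 : (2 ^ (r + 10) + 2) / lam ≤ (2 ^ (r + 10) + 2) * 2 ^ r := by
        rw [div_eq_mul_one_div]
        gcongr
      have h9 : (1 : ℝ) ≤ 2 ^ r := one_le_pow₀ (by norm_num)
      have h10 : (2 : ℝ) ^ (2 * r + 12) = 4096 * (2 ^ r * 2 ^ r) := by
        rw [pow_add, two_mul, pow_add]; norm_num; ring
      have h11 : (2 : ℝ) ^ (r + 10) = 1024 * 2 ^ r := by
        rw [pow_add]; norm_num; ring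
      rw [h10]
      rw [h11] at h8 ⊢
      nlinarith
    have h6 : (⌊(A + 2 ^ (r + 10) + 1) / lam⌋ + 1 - ⌈(A - 1) / lam⌉ : ℤ) ≤ 2 ^ (2 * r + 12) := by
      exact_mod_cast h5
    rw [Int.toNat_le]
    exact_mod_cast h6
  calc (SS y lam r d).card ≤ 2 ^ (5 * r + 12) * ((SS y lam r d).image κ).card := h1
    _ ≤ 2 ^ (5 * r + 12) * 2 ^ (2 * r + 12) := Nat.mul_le_mul_left _ h2
    _ = _ := by ring

/-- the group `g` of scale `r` (levels `g * 2 ^ r + 1, ..., (g + 1) * 2 ^ r`) is good -/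
def Good (y lam : ℝ) (r g : ℕ) : Prop :=
  ∀ h h' : ℕ, h < 2 ^ r → h' < 2 ^ r → h ≠ h' → ∀ k : ℤ,
    ((2 : ℝ) ^ (5 * r))⁻¹ ≤ |aa y (g * 2 ^ r + 1 + h) - aa y (g * 2 ^ r + 1 + h') - k * lam|

lemma exists_of_not_good (y lam : ℝ) (r g : ℕ) (hg : ¬ Good y lam r g) :
    ∃ d h : ℕ, 1 ≤ d ∧ d < 2 ^ r ∧ h < 2 ^ r ∧
      ∃ k : ℤ, |ff y d (g * 2 ^ r + 1 + h) - k * lam| < ((2 : ℝ) ^ (5 * r))⁻¹ := by
  unfold Good at hg
  push Not at hg
  obtain ⟨h, h', hh, hh', hne, k, hk⟩ := hg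
  rcases lt_or_gt_of_ne hne with hlt | hgt
  · refine ⟨h' - h, h, by omega, by omega, hh, -k, ?_⟩
    unfold ff
    rw [show g * 2 ^ r + 1 + h + (h' - h) = g * 2 ^ r + 1 + h' by omega]
    rw [← abs_neg]
    refine lt_of_eq_of_lt ?_ hk
    congr 1
    push_cast
    ring
  · refine ⟨h - h', h', by omega, by omega, hh', k, ?_⟩
    unfold ff
    rw [show g * 2 ^ r + 1 + h' + (h - h') = g * 2 ^ r + 1 + h by omega]
    exact hk

open Classical in
/-- the good groups of scale `r` -/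
noncomputable def GG (y lam : ℝ) (r : ℕ) : Finset ℕ :=
  (Ico (2 ^ (9 * r)) (2 ^ (9 * r + 10))).filter (fun g => Good y lam r g)

lemma mem_GG {y lam : ℝ} {r g : ℕ} (hg : g ∈ GG y lam r) :
    g ∈ Ico (2 ^ (9 * r)) (2 ^ (9 * r + 10)) ∧ Good y lam r g := by
  classical
  unfold GG at hg
  rwa [mem_filter] at hg

theorem card_GG (y lam : ℝ) (r : ℕ) (hr : 24 ≤ r) (hlam : 0 < lam) (hl : 1 ≤ lam * 2 ^ r) :
    2 ^ (9 * r) ≤ (GG y lam r).card := by
  classical
  set B := (Ico (2 ^ (9 * r)) (2 ^ (9 * r + 10))).filter (fun g => ¬ Good y lam r g) with hB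
  have hsum : (GG y lam r).card + B.card = (Ico (2 ^ (9 * r)) (2 ^ (9 * r + 10))).card :=
    card_filter_add_card_filter_not _
  have hBc : B.card ≤ 2 ^ (9 * r) := by
    have hsub : B ⊆ (Ico 1 (2 ^ r)).biUnion
        (fun d => (SS y lam r d).image (fun i => (i - 1) / 2 ^ r)) := by
      intro g hg
      rw [hB, mem_filter, mem_Ico] at hg
      obtain ⟨d, h, hd1, hd2, hh, hk⟩ := exists_of_not_good y lam r g hg.2
      rw [mem_biUnion]
      refine ⟨d, mem_Ico.2 ⟨hd1, hd2⟩, mem_image.2 ⟨g * 2 ^ r + 1 + h, ?_, ?_⟩⟩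
      · unfold SS
        rw [mem_filter, mem_Ioc]
        refine ⟨⟨?_, ?_⟩, hk⟩
        · have : 2 ^ (10 * r) ≤ g * 2 ^ r := by
            calc 2 ^ (10 * r) = 2 ^ (9 * r) * 2 ^ r := by rw [← pow_add]; congr 1; ring
              _ ≤ g * 2 ^ r := Nat.mul_le_mul_right _ hg.1.1
          omega
        · have : (g + 1) * 2 ^ r ≤ 2 ^ (10 * r + 10) := by
            calc (g + 1) * 2 ^ r ≤ 2 ^ (9 * r + 10) * 2 ^ r := Nat.mul_le_mul_right _ hg.1.2
              _ = 2 ^ (10 * r + 10) := by rw [← pow_add]; congr 1; ring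
          have h2 : (g + 1) * 2 ^ r = g * 2 ^ r + 2 ^ r := by ring
          omega
      · show (g * 2 ^ r + 1 + h - 1) / 2 ^ r = g
        rw [show g * 2 ^ r + 1 + h - 1 = h + g * 2 ^ r by omega,
          Nat.add_mul_div_right _ _ (by positivity), Nat.div_eq_of_lt hh, zero_add]
    calc B.card ≤ _ := card_le_card hsub
      _ ≤ ∑ d ∈ Ico 1 (2 ^ r), ((SS y lam r d).image (fun i => (i - 1) / 2 ^ r)).card :=
        card_biUnion_le
      _ ≤ ∑ d ∈ Ico 1 (2 ^ r), 2 ^ (2 * r + 12) * 2 ^ (5 * r + 12) := by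
        apply sum_le_sum
        intro d hd
        rw [mem_Ico] at hd
        exact card_image_le.trans (card_SS y lam r d hd.1 (by omega) hlam hl)
      _ = (2 ^ r - 1) * (2 ^ (2 * r + 12) * 2 ^ (5 * r + 12)) := by
        rw [sum_const, Nat.card_Ico, smul_eq_mul]
      _ ≤ 2 ^ r * (2 ^ (2 * r + 12) * 2 ^ (5 * r + 12)) := Nat.mul_le_mul_right _ (Nat.sub_le _ _)
      _ = 2 ^ (8 * r + 24) := by rw [← pow_add, ← pow_add]; congr 1; ring
      _ ≤ 2 ^ (9 * r) := Nat.pow_le_pow_right (by norm_num) (by omega)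
  have hI : (Ico (2 ^ (9 * r)) (2 ^ (9 * r + 10))).card = 1023 * 2 ^ (9 * r) := by
    rw [Nat.card_Ico, pow_add]
    omega
  rw [hI] at hsum
  omega

end Pool.Agent.R21.EK
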