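import Pool.Agent.R21.EK.Val

/-!
# Separation of two configurations
-/

set_option autoImplicit false

open Finset

namespace Pool.Agent.R21.EK

namespace Par

variable (P : Par)

lemma KK_of (σ : Conf) (l r g h : ℕ) (hh : h < 2 ^ r) (e1 : rr l = r) (e2 : l / 2 ^ r = g)
    (e3 : l % 2 ^ r = h) (hr : P.r0 ≤ r) (hgood : Good P.y P.lam r g) :
    P.KK σ l = kk P.y P.q (l + 1) (P.UU r g ((σ r g).symm ⟨h, hh⟩)) := by
  subst e1
  subst e2
  subst e3
  unfold KK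
  rw [if_pos ⟨hr, hgood⟩]

lemma level_range {r g : ℕ} (hg : g ∈ GG P.y P.lam r) (h : ℕ) (hh : h < 2 ^ r) :
    2 ^ (10 * r) ≤ g * 2 ^ r + h ∧ g * 2 ^ r + h < 2 ^ (10 * r + 10) ∧
      (g + 1) * 2 ^ r ≤ 2 ^ (10 * r + 10) := by
  have hg' := mem_Ico.1 (mem_GG hg).1
  have h1 : 2 ^ (10 * r) ≤ g * 2 ^ r := by
    calc 2 ^ (10 * r) = 2 ^ (9 * r) * 2 ^ r := by rw [← pow_add]; congr 1; ring
      _ ≤ g * 2 ^ r := Nat.mul_le_mul_right _ hg'.1
  have h2 : (g + 1) * 2 ^ r ≤ 2 ^ (10 * r + 10) := by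
    calc (g + 1) * 2 ^ r ≤ 2 ^ (9 * r + 10) * 2 ^ r := Nat.mul_le_mul_right _ hg'.2
      _ = 2 ^ (10 * r + 10) := by rw [← pow_add]; congr 1; ring
  have h3 : (g + 1) * 2 ^ r = g * 2 ^ r + 2 ^ r := by ring
  omega

lemma VV_group (σ : Conf) (r g : ℕ) (hr : P.r0 ≤ r) (hg : g ∈ GG P.y P.lam r)
    (s : Fin (2 ^ r)) :
    P.VV σ (g * 2 ^ r + (σ r g s : ℕ)) =
      vv P.y P.q (g * 2 ^ r + 1 + (σ r g s : ℕ)) (P.UU r g s) := by
  obtain ⟨h1, h2, -⟩ := P.level_range hg (σ r g s : ℕ) (σ r g s).2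
  have hgood : Good P.y P.lam r g := (mem_GG hg).2
  have e1 := rr_eq h1 h2
  have e2 : (g * 2 ^ r + (σ r g s : ℕ)) / 2 ^ r = g := by
    rw [add_comm, Nat.add_mul_div_right _ _ (by positivity), Nat.div_eq_of_lt (σ r g s).2, zero_add]
  have e3 : (g * 2 ^ r + (σ r g s : ℕ)) % 2 ^ r = (σ r g s : ℕ) := by
    rw [add_comm, Nat.add_mul_mod_self_right, Nat.mod_eq_of_lt (σ r g s).2]
  unfold VV vv
  rw [P.KK_of σ _ r g _ (σ r g s).2 e1 e2 e3 hr hgood, Fin.eta, Equiv.symm_apply_apply,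
    show g * 2 ^ r + (σ r g s : ℕ) + 1 = g * 2 ^ r + 1 + (σ r g s : ℕ) by ring]

lemma group_sum (σ : Conf) (r g : ℕ) (hr : P.r0 ≤ r) (hg : g ∈ GG P.y P.lam r) :
    ∑ h ∈ range (2 ^ r), P.VV σ (g * 2 ^ r + h) =
      ∑ s : Fin (2 ^ r), vv P.y P.q (g * 2 ^ r + 1 + (σ r g s : ℕ)) (P.UU r g s) := by
  rw [Finset.sum_range (fun h => P.VV σ (g * 2 ^ r + h)),
    ← Equiv.sum_comp (σ r g) (fun h : Fin (2 ^ r) => P.VV σ (g * 2 ^ r + (h : ℕ)))]
  exact sum_congr rfl fun s _ => P.VV_group σ r g hr hg s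

lemma sum_UU_gt (r g : ℕ) (hr : 1 ≤ r) (t : Fin (2 ^ r)) :
    ∑ s : Fin (2 ^ r), (if t < s then P.UU r g s else 0) ≤
      2 * (ww P.y ((g + 1) * 2 ^ r) * E r ^ ((t : ℕ) + 1)) := by
  have hE2 : E r ≤ 1 / 2 := by
    unfold E
    rw [one_div]
    apply inv_anti₀ (by norm_num)
    calc (2 : ℝ) = 2 ^ 1 := by norm_num
      _ ≤ 2 ^ (6 * r) := pow_le_pow_right₀ (by norm_num) (by omega)
  have h1 : ∑ s : Fin (2 ^ r), (if t < s then P.UU r g s else 0) =
      ∑ s ∈ Ico ((t : ℕ) + 1) (2 ^ r), P.UU r g s := by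
    have : ∑ s : Fin (2 ^ r), (if t < s then P.UU r g s else 0) =
        ∑ s : Fin (2 ^ r), (fun n : ℕ => if (t : ℕ) < n then P.UU r g n else 0) (s : ℕ) := by
      apply sum_congr rfl
      intro s _
      simp only [Fin.lt_def]
    rw [this, ← Finset.sum_range (fun n : ℕ => if (t : ℕ) < n then P.UU r g n else 0),
      ← Finset.sum_filter]
    apply sum_congr _ (fun _ _ => rfl)
    ext n
    simp only [mem_filter, mem_range, mem_Ico]
    omega
  rw [h1]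
  have h2 := geom_sum_Ico_le_of_lt_one (x := E r) (E_pos r).le (by linarith) (m := (t : ℕ) + 1)
    (n := 2 ^ r)
  have h3 : E r ^ ((t : ℕ) + 1) / (1 - E r) ≤ 2 * E r ^ ((t : ℕ) + 1) := by
    rw [div_le_iff₀ (by linarith)]
    have : 0 < E r ^ ((t : ℕ) + 1) := pow_pos (E_pos r) _
    nlinarith
  have hu := ww_pos P.hy0 ((g + 1) * 2 ^ r)
  calc ∑ s ∈ Ico ((t : ℕ) + 1) (2 ^ r), P.UU r g s
      = ww P.y ((g + 1) * 2 ^ r) * ∑ s ∈ Ico ((t : ℕ) + 1) (2 ^ r), E r ^ s := by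
        unfold UU; rw [mul_sum]
    _ ≤ ww P.y ((g + 1) * 2 ^ r) * (2 * E r ^ ((t : ℕ) + 1)) := by
        apply mul_le_mul_of_nonneg_left (h2.trans h3) hu.le
    _ = _ := by ring

theorem sep (σ σ' : Conf) (r g : ℕ) (hr : P.r0 ≤ r) (hg : g ∈ GG P.y P.lam r)
    (hpre : ∀ l < g * 2 ^ r, σ (rr l) (l / 2 ^ rr l) = σ' (rr l) (l / 2 ^ rr l))
    (hne : σ r g ≠ σ' r g) :
    ww P.y ((g + 1) * 2 ^ r) * E r ^ (2 ^ r) ≤ |P.FF σ - P.FF σ'| := by
  classical
  have hr24 : 24 ≤ r := P.hr0.trans hr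
  set u := ww P.y ((g + 1) * 2 ^ r) with hu
  have hu0 : 0 < u := ww_pos P.hy0 _
  have hE0 := E_pos r
  set D : ℕ → ℝ := fun l => P.VV σ l - P.VV σ' l with hD
  have hDs : Summable D := (P.summable_VV σ).sub (P.summable_VV σ')
  have hF : P.FF σ - P.FF σ' = ∑' l, D l := by
    unfold FF
    rw [hD, (P.summable_VV σ).tsum_sub (P.summable_VV σ')]
    ring
  have hsplit : ∑' l, D l = ∑ l ∈ range ((g + 1) * 2 ^ r), D l +
      ∑' j, D (j + (g + 1) * 2 ^ r) := (hDs.sum_add_tsum_nat_add _).symm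
  have htail : |∑' j, D (j + (g + 1) * 2 ^ r)| ≤ u * E r ^ (2 ^ r) := by
    have hg' := mem_Ico.1 (mem_GG hg).1
    exact P.tail_sum σ σ' r g (by omega) hg'.1
  have hfirst : ∑ l ∈ range (g * 2 ^ r), D l = 0 := by
    apply sum_eq_zero
    intro l hl
    have h1 := hpre l (mem_range.1 hl)
    simp only [hD]
    unfold VV KK
    rw [h1, sub_self]
  have hmid : ∑ l ∈ range ((g + 1) * 2 ^ r), D l = ∑ s : Fin (2 ^ r),
      (vv P.y P.q (g * 2 ^ r + 1 + (σ r g s : ℕ)) (P.UU r g s) -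
        vv P.y P.q (g * 2 ^ r + 1 + (σ' r g s : ℕ)) (P.UU r g s)) := by
    rw [show (g + 1) * 2 ^ r = g * 2 ^ r + 2 ^ r by ring, Finset.sum_range_add, hfirst, zero_add]
    simp only [hD]
    rw [sum_sub_distrib, sum_sub_distrib, P.group_sum σ r g hr hg, P.group_sum σ' r g hr hg]
  -- the first slot with different levels
  have hex : ∃ n : ℕ, ∃ hn : n < 2 ^ r, σ r g ⟨n, hn⟩ ≠ σ' r g ⟨n, hn⟩ := by
    by_contra hcon
    push Not at hcon
    exact hne (Equiv.ext fun s => hcon s s.2)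
  obtain ⟨ht, htne⟩ := Nat.find_spec hex
  have htmin : ∀ n < Nat.find hex, ∀ hn : n < 2 ^ r, σ r g ⟨n, hn⟩ = σ' r g ⟨n, hn⟩ := by
    intro n hn hn'
    have := Nat.find_min hex hn
    push Not at this
    exact this hn'
  set t : Fin (2 ^ r) := ⟨Nat.find hex, ht⟩ with htdef
  set a : Fin (2 ^ r) → ℝ := fun s =>
    vv P.y P.q (g * 2 ^ r + 1 + (σ r g s : ℕ)) (P.UU r g s) with ha
  set a' : Fin (2 ^ r) → ℝ := fun s =>
    vv P.y P.q (g * 2 ^ r + 1 + (σ' r g s : ℕ)) (P.UU r g s) with ha'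
  have hbound : ∀ s, |a s - a' s| ≤ P.UU r g s := by
    intro s
    have h1 := vv_le P.hy0 P.hq0 P.hq1 (g * 2 ^ r + 1 + (σ r g s : ℕ)) (P.UU_pos r g s)
    have h2 := vv_le P.hy0 P.hq0 P.hq1 (g * 2 ^ r + 1 + (σ' r g s : ℕ)) (P.UU_pos r g s)
    have h3 := vv_pos P.hy0 P.hq0 (g * 2 ^ r + 1 + (σ r g s : ℕ)) (P.UU r g s)
    have h4 := vv_pos P.hy0 P.hq0 (g * 2 ^ r + 1 + (σ' r g s : ℕ)) (P.UU r g s)
    rw [abs_le]
    simp only [ha, ha']
    constructor <;> linarith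
  have hzero : ∀ s : Fin (2 ^ r), s < t → a s - a' s = 0 := by
    intro s hs
    have : σ r g s = σ' r g s := htmin s hs s.2
    simp only [ha, ha', this, sub_self]
  have hothers : |∑ s ∈ univ.erase t, (a s - a' s)| ≤ 2 * (u * E r ^ ((t : ℕ) + 1)) := by
    refine le_trans (abs_sum_le_sum_abs _ _) (le_trans ?_ (P.sum_UU_gt r g (by omega) t))
    calc ∑ s ∈ univ.erase t, |a s - a' s|
        ≤ ∑ s ∈ univ.erase t, (if t < s then P.UU r g s else 0) := by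
          apply sum_le_sum
          intro s hs
          rcases lt_or_gt_of_ne (ne_of_mem_erase hs) with h | h
          · rw [hzero s h, abs_zero, if_neg (not_lt.2 h.le)]
          · rw [if_pos h]; exact hbound s
      _ ≤ ∑ s, (if t < s then P.UU r g s else 0) := by
          apply sum_le_sum_of_subset_of_nonneg (erase_subset _ _)
          intro s _ _
          split_ifs
          · exact (P.UU_pos r g s).le
          · exact le_rfl
  have hgap : P.q * P.UU r g t * ((2 : ℝ) ^ (5 * r))⁻¹ ≤ |a t - a' t| := by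
    have hUw : ∀ i, i ≤ (g + 1) * 2 ^ r → P.UU r g t ≤ ww P.y i := fun i hi =>
      (P.UU_le r g t).trans (ww_anti P.hy0 P.hy1 hi)
    have hlev : ∀ h : Fin (2 ^ r), g * 2 ^ r + 1 + (h : ℕ) ≤ (g + 1) * 2 ^ r := by
      intro h
      have := h.2
      have h3 : (g + 1) * 2 ^ r = g * 2 ^ r + 2 ^ r := by ring
      omega
    have hUpos := P.UU_pos r g t
    have hq0 := P.hq0
    apply vv_sep P.hy0 P.hq0 _ _ _ _ _ (by positivity) (by positivity)
      (le_vv P.hy0 P.hq0 P.hq1 _ hUpos (hUw _ (hlev _)))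
      (le_vv P.hy0 P.hq0 P.hq1 _ hUpos (hUw _ (hlev _)))
    intro k
    have hgood : Good P.y P.lam r g := (mem_GG hg).2
    have hne' : ((σ r g t : ℕ)) ≠ (σ' r g t : ℕ) := fun h => htne (Fin.ext h)
    exact hgood _ _ (σ r g t).2 (σ' r g t).2 hne' k
  have hsum : ∑ s, (a s - a' s) = (a t - a' t) + ∑ s ∈ univ.erase t, (a s - a' s) :=
    (add_sum_erase univ (fun s => a s - a' s) (mem_univ t)).symm
  have hEt : E r ^ (2 ^ r) ≤ E r ^ ((t : ℕ) + 1) :=
    pow_le_pow_of_le_one hE0.le (E_le_one r) ht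
  have hEt0 : 0 < E r ^ ((t : ℕ) + 1) := pow_pos hE0 _
  -- the comparison of the gap with the rest
  have hmain : 4 * (u * E r ^ ((t : ℕ) + 1)) ≤ |a t - a' t| := by
    refine le_trans ?_ hgap
    unfold UU
    rw [← hu, pow_succ]
    have h2 := P.h2 r hr
    have h5 : P.q * (u * E r ^ (t : ℕ)) * ((2 : ℝ) ^ (5 * r))⁻¹ =
        (P.q * 2 ^ r) * (u * (E r ^ (t : ℕ) * E r)) := by
      unfold E
      have : ((2 : ℝ) ^ (5 * r))⁻¹ = 2 ^ r * ((2 : ℝ) ^ (6 * r))⁻¹ := by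
        rw [show 6 * r = r + 5 * r by ring, pow_add]
        field_simp
      rw [this]
      ring
    rw [h5]
    have h6 : 0 < u * (E r ^ (t : ℕ) * E r) := by
      have := pow_pos hE0 (t : ℕ)
      positivity
    nlinarith
  have hfinal : P.FF σ - P.FF σ' = (a t - a' t) + (∑ s ∈ univ.erase t, (a s - a' s) +
      ∑' j, D (j + (g + 1) * 2 ^ r)) := by
    rw [hF, hsplit, hmid, ← add_assoc, ← hsum]
  rw [hfinal]
  have h7 : |∑ s ∈ univ.erase t, (a s - a' s) + ∑' j, D (j + (g + 1) * 2 ^ r)| ≤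
      3 * (u * E r ^ ((t : ℕ) + 1)) := by
    refine le_trans (abs_add_le _ _) ?_
    have h8 : u * E r ^ (2 ^ r) ≤ u * E r ^ ((t : ℕ) + 1) := by gcongr
    linarith
  have h8 : u * E r ^ (2 ^ r) ≤ u * E r ^ ((t : ℕ) + 1) := by gcongr
  have h9 : ∀ x z : ℝ, |x| - |z| ≤ |x + z| := by
    intro x z
    have := abs_sub_abs_le_abs_sub x (-z)
    rwa [abs_neg, sub_neg_eq_add] at this
  have h10 := h9 (a t - a' t) (∑ s ∈ univ.erase t, (a s - a' s) + ∑' j, D (j + (g + 1) * 2 ^ r))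
  linarith

/-- the exponent of a level is at most the level -/
lemma KK_le (σ : Conf) (l : ℕ) : P.KK σ l ≤ l + 1 := by
  unfold KK
  split_ifs with hcase
  · set r := rr l with hr
    set g := l / 2 ^ r with hg
    have hr0 := hcase.1
    have hr24 : 24 ≤ r := P.hr0.trans hr0
    have hl0 : l ≠ 0 := by
      rintro rfl
      have : r = 0 := by rw [hr]; simp [rr]
      omega
    have hlow : 2 ^ (10 * r) ≤ l := pow_rr_le hl0
    have hup : l < 2 ^ (10 * r + 10) := lt_pow_rr l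
    set t : ℕ := ((σ r g).symm ⟨l % 2 ^ r, mod_lt' _ _⟩ : ℕ) with ht
    have htlt : t < 2 ^ r := ((σ r g).symm ⟨l % 2 ^ r, mod_lt' _ _⟩).2
    apply kk_le
    set e := (g + 1) * 2 ^ r with he
    have h1 := Nat.div_add_mod l (2 ^ r)
    have h2 := mod_lt' l r
    have h3 : e = 2 ^ r * g + 2 ^ r := by rw [he]; ring
    rw [← hg] at h1
    have he1 : l + 1 ≤ e := by omega
    have he2 : e ≤ l + 2 ^ r := by omega
    have hdvd : e ≤ 2 ^ (10 * r + 10) := by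
      have h4 : g < 2 ^ (9 * r + 10) := by
        rw [hg]
        apply Nat.div_lt_of_lt_mul
        calc l < 2 ^ (10 * r + 10) := hup
          _ = 2 ^ r * 2 ^ (9 * r + 10) := by rw [← pow_add]; congr 1; ring
      calc e ≤ 2 ^ (9 * r + 10) * 2 ^ r := Nat.mul_le_mul_right _ h4
        _ = 2 ^ (10 * r + 10) := by rw [← pow_add]; congr 1; ring
    obtain ⟨c, hc⟩ := Nat.exists_eq_add_of_le he1
    have hcle : c ≤ 2 ^ r := by omega
    have h5 := le_ww_add P.hy0 (2 ^ (10 * r + 10)) (l + 1) c (by positivity) (by omega)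
    rw [← hc] at h5
    have hw := ww_pos P.hy0 (l + 1)
    have hyN0 : 0 < P.y / ((2 ^ (10 * r + 10) : ℕ) : ℝ) := by
      have := P.hy0
      positivity
    have hyN1 : P.y / ((2 ^ (10 * r + 10) : ℕ) : ℝ) ≤ 1 := by
      rw [div_le_one (by positivity)]
      push_cast
      exact P.hy1.trans (one_le_pow₀ (by norm_num))
    have h6 : ww P.y (l + 1) * (P.y / ((2 ^ (10 * r + 10) : ℕ) : ℝ)) ^ (2 ^ r) ≤ ww P.y e :=
      le_trans (by
        apply mul_le_mul_of_nonneg_left _ hw.le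
        exact pow_le_pow_of_le_one hyN0.le hyN1 hcle) h5
    have h7 : P.q ^ (l + 1) ≤
        (P.y / ((2 ^ (10 * r + 10) : ℕ) : ℝ)) ^ (2 ^ r) * E r ^ (2 ^ r) := by
      calc P.q ^ (l + 1) ≤ P.q ^ (2 ^ (10 * r)) :=
            pow_le_pow_of_le_one P.hq0.le P.hq1.le (by omega)
        _ = (P.q ^ (2 ^ (9 * r))) ^ (2 ^ r) := by
            rw [← pow_mul, ← pow_add]; congr 2; ring
        _ ≤ (P.y * ((2 : ℝ) ^ (16 * r + 10))⁻¹) ^ (2 ^ r) :=
            pow_le_pow_left₀ (pow_nonneg P.hq0.le _) (P.h3 r hr0) _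
        _ = _ := by
            rw [← mul_pow]
            congr 1
            unfold E
            push_cast
            rw [div_eq_mul_inv, mul_assoc, ← mul_inv, ← pow_add]
            congr 3
            ring
    have hEpos : 0 < E r ^ (2 ^ r) := pow_pos (E_pos r) _
    calc ww P.y (l + 1) * P.q ^ (l + 1)
        ≤ ww P.y (l + 1) * ((P.y / ((2 ^ (10 * r + 10) : ℕ) : ℝ)) ^ (2 ^ r) * E r ^ (2 ^ r)) := by
          gcongr
      _ = (ww P.y (l + 1) * (P.y / ((2 ^ (10 * r + 10) : ℕ) : ℝ)) ^ (2 ^ r)) * E r ^ (2 ^ r) := by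
          ring
      _ ≤ ww P.y e * E r ^ (2 ^ r) := by gcongr
      _ ≤ ww P.y e * E r ^ t := by
          apply mul_le_mul_of_nonneg_left _ (ww_pos P.hy0 _).le
          exact pow_le_pow_of_le_one (E_pos r).le (E_le_one r) htlt.le
      _ = P.UU r g t := rfl
  · exact Nat.zero_le _

end Par

end Pool.Agent.R21.EK
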