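import Pool.Agent.R21.EK.Count

/-!
# The terms of the series and the separation of the sums
-/

set_option autoImplicit false

open Finset

namespace Pool.Agent.R21.EK

/-- the coefficient `y ^ i / i!` -/
noncomputable def ww (y : ℝ) (i : ℕ) : ℝ := y ^ i / i.factorial

lemma ww_pos {y : ℝ} (hy : 0 < y) (i : ℕ) : 0 < ww y i := by
  unfold ww; positivity

lemma ww_eq_exp {y : ℝ} (hy : 0 < y) (i : ℕ) : ww y i = Real.exp (-aa y i) := by
  unfold ww aa
  rw [neg_sub, Real.exp_sub, Real.exp_log (by positivity), mul_comm, Real.exp_mul,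
    Real.exp_log hy, Real.rpow_natCast]

lemma ww_succ (y : ℝ) (i : ℕ) : ww y (i + 1) = ww y i * (y / ((i : ℝ) + 1)) := by
  unfold ww
  rw [Nat.factorial_succ, pow_succ]
  push_cast
  field_simp

lemma ww_succ_le {y : ℝ} (hy : 0 < y) (hy1 : y ≤ 1) (i : ℕ) : ww y (i + 1) ≤ ww y i := by
  rw [ww_succ]
  apply mul_le_of_le_one_right (ww_pos hy i).le
  rw [div_le_one (by positivity)]
  have : (0 : ℝ) ≤ i := by positivity
  linarith

lemma ww_anti {y : ℝ} (hy : 0 < y) (hy1 : y ≤ 1) : Antitone (ww y) :=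
  antitone_nat_of_succ_le (ww_succ_le hy hy1)

/-- geometric decay from `m` on, with ratio `1 / m` -/
lemma ww_add_le {y : ℝ} (hy : 0 < y) (hy1 : y ≤ 1) (c : ℝ) (hc : 0 < c) (m : ℕ) (hm : c ≤ m)
    (k : ℕ) : ww y (m + k) ≤ ww y m * (c⁻¹) ^ k := by
  induction k with
  | zero => simp
  | succ k ih =>
    rw [← add_assoc, ww_succ, pow_succ, ← mul_assoc]
    apply mul_le_mul ih _ (by positivity) (by have := ww_pos hy m; positivity)
    rw [inv_eq_one_div]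
    apply div_le_div₀ (by norm_num) hy1 hc
    push_cast
    have : (0 : ℝ) ≤ k := by positivity
    linarith

lemma le_ww_add {y : ℝ} (hy : 0 < y) (N i k : ℕ) (hN : 0 < N) (h : i + k ≤ N) :
    ww y i * (y / N) ^ k ≤ ww y (i + k) := by
  induction k with
  | zero => simp
  | succ k ih =>
    rw [← add_assoc, ww_succ, pow_succ, ← mul_assoc]
    have hNpos : (0 : ℝ) < N := by exact_mod_cast hN
    apply mul_le_mul (ih (by omega)) _ (by positivity) (ww_pos hy _).le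
    apply div_le_div_of_nonneg_left hy.le (by positivity)
    exact_mod_cast h

open Classical in
/-- the least `k` with `ww y i * q ^ k ≤ U` -/
noncomputable def kk (y q : ℝ) (i : ℕ) (U : ℝ) : ℕ :=
  if h : ∃ k : ℕ, ww y i * q ^ k ≤ U then Nat.find h else 0

/-- the value -/
noncomputable def vv (y q : ℝ) (i : ℕ) (U : ℝ) : ℝ := ww y i * q ^ kk y q i U

lemma exists_kk {y q : ℝ} (hy : 0 < y) (hq0 : 0 < q) (hq1 : q < 1) (i : ℕ) {U : ℝ} (hU : 0 < U) :
    ∃ k : ℕ, ww y i * q ^ k ≤ U := by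
  obtain ⟨k, hk⟩ := exists_pow_lt_of_lt_one (div_pos hU (ww_pos hy i)) hq1
  refine ⟨k, ?_⟩
  rw [lt_div_iff₀ (ww_pos hy i)] at hk
  linarith [mul_comm (ww y i) (q ^ k)]

lemma vv_le {y q : ℝ} (hy : 0 < y) (hq0 : 0 < q) (hq1 : q < 1) (i : ℕ) {U : ℝ} (hU : 0 < U) :
    vv y q i U ≤ U := by
  classical
  unfold vv kk
  rw [dif_pos (exists_kk hy hq0 hq1 i hU)]
  exact Nat.find_spec (exists_kk hy hq0 hq1 i hU)

lemma vv_pos {y q : ℝ} (hy : 0 < y) (hq0 : 0 < q) (i : ℕ) (U : ℝ) : 0 < vv y q i U := by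
  unfold vv
  have := ww_pos hy i
  positivity

lemma le_vv {y q : ℝ} (hy : 0 < y) (hq0 : 0 < q) (hq1 : q < 1) (i : ℕ) {U : ℝ} (hU : 0 < U)
    (hUw : U ≤ ww y i) : q * U ≤ vv y q i U := by
  classical
  unfold vv kk
  have hex := exists_kk hy hq0 hq1 i hU
  rw [dif_pos hex]
  rcases Nat.eq_zero_or_pos (Nat.find hex) with h0 | hpos
  · rw [h0, pow_zero, mul_one]
    nlinarith
  · obtain ⟨k, hk⟩ := Nat.exists_eq_succ_of_ne_zero hpos.ne'
    have hmin := Nat.find_min hex (m := k) (by omega)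
    push Not at hmin
    rw [hk, Nat.succ_eq_add_one, pow_succ]
    nlinarith

lemma kk_le {y q : ℝ} (i : ℕ) {U : ℝ} (h : ww y i * q ^ i ≤ U) : kk y q i U ≤ i := by
  classical
  unfold kk
  rw [dif_pos ⟨i, h⟩]
  exact Nat.find_min' _ h

/-- values of two levels whose positions differ modulo `lam` are separated -/
lemma vv_sep {y q : ℝ} (hy : 0 < y) (hq0 : 0 < q) (i i' : ℕ) (U m th : ℝ)
    (hm0 : 0 < m) (hth : 0 ≤ th)
    (h1 : m ≤ vv y q i U) (h2 : m ≤ vv y q i' U)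
    (h : ∀ k : ℤ, th ≤ |aa y i - aa y i' - k * (-Real.log q)|) :
    m * th ≤ |vv y q i U - vv y q i' U| := by
  have hexp : ∀ j, vv y q j U = Real.exp (-(aa y j + kk y q j U * (-Real.log q))) := by
    intro j
    unfold vv
    rw [ww_eq_exp hy, neg_add, Real.exp_add]
    congr 1
    rw [mul_neg, neg_neg, mul_comm, Real.exp_mul, Real.exp_log hq0, Real.rpow_natCast]
  have key : ∀ A B : ℝ, A ≤ B → m ≤ Real.exp (-B) → th ≤ B - A →
      m * th ≤ Real.exp (-A) - Real.exp (-B) := by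
    intro A B hAB hB hd
    have h3 : Real.exp (-A) = Real.exp (-B) * Real.exp (B - A) := by
      rw [← Real.exp_add]; ring_nf
    have h4 := Real.add_one_le_exp (B - A)
    rw [h3]
    have h5 : 0 < Real.exp (-B) := Real.exp_pos _
    nlinarith
  set A := aa y i + kk y q i U * (-Real.log q) with hA
  set B := aa y i' + kk y q i' U * (-Real.log q) with hB
  have hAB : th ≤ |A - B| := by
    have := h ((kk y q i' U : ℤ) - (kk y q i U : ℤ))
    refine le_trans this (le_of_eq ?_)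
    congr 1
    push_cast
    rw [hA, hB]
    ring
  rw [hexp i, hexp i'] at *
  rcases le_total A B with h5 | h5
  · rw [abs_of_nonpos (by linarith)] at hAB
    have := key A B h5 h2 (by linarith)
    rw [abs_of_nonneg (by nlinarith)]
    exact this
  · rw [abs_of_nonneg (by linarith)] at hAB
    have := key B A h5 h1 (by linarith)
    rw [abs_sub_comm, abs_of_nonneg (by nlinarith)]
    exact this

/-- the parameters -/
structure Par where
  y : ℝ
  q : ℝ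
  r0 : ℕ
  hy0 : 0 < y
  hy1 : y ≤ 1
  hq0 : 0 < q
  hq1 : q < 1
  hr0 : 24 ≤ r0
  h1 : ∀ r, r0 ≤ r → 1 ≤ (-Real.log q) * 2 ^ r
  h2 : ∀ r, r0 ≤ r → 4 ≤ q * 2 ^ r
  h3 : ∀ r, r0 ≤ r → q ^ (2 ^ (9 * r)) ≤ y * ((2 : ℝ) ^ (16 * r + 10))⁻¹

namespace Par

variable (P : Par)

/-- the logarithmic period -/
noncomputable def lam : ℝ := -Real.log P.q

lemma lam_pos : 0 < P.lam := by
  unfold lam
  have := Real.log_neg P.hq0 P.hq1
  linarith

/-- the spacing of the slots -/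
noncomputable def E (r : ℕ) : ℝ := ((2 : ℝ) ^ (6 * r))⁻¹

lemma E_pos (r : ℕ) : 0 < E r := by unfold E; positivity

/-- the slots of the group `g` -/
noncomputable def UU (r g t : ℕ) : ℝ := ww P.y ((g + 1) * 2 ^ r) * E r ^ t

lemma UU_pos (r g t : ℕ) : 0 < P.UU r g t := by
  unfold UU
  have := ww_pos P.hy0 ((g + 1) * 2 ^ r)
  have := E_pos r
  positivity

lemma E_le_one (r : ℕ) : E r ≤ 1 := by
  unfold E
  exact inv_le_one_of_one_le₀ (one_le_pow₀ (by norm_num))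

lemma UU_le (r g t : ℕ) : P.UU r g t ≤ ww P.y ((g + 1) * 2 ^ r) := by
  unfold UU
  apply mul_le_of_le_one_right (ww_pos P.hy0 _).le
  exact pow_le_one₀ (E_pos r).le (E_le_one r)

/-- the scale of a level -/
def rr (l : ℕ) : ℕ := Nat.log 1024 l

lemma rr_eq {l r : ℕ} (h1 : 2 ^ (10 * r) ≤ l) (h2 : l < 2 ^ (10 * r + 10)) : rr l = r := by
  unfold rr
  rw [Nat.log_eq_iff (by right; exact ⟨by norm_num, by
    have : 0 < 2 ^ (10 * r) := by positivity
    omega⟩)]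
  rw [show (1024 : ℕ) = 2 ^ 10 by norm_num, ← pow_mul, ← pow_mul]
  exact ⟨h1, by rwa [show 10 * (r + 1) = 10 * r + 10 by ring]⟩

lemma pow_rr_le {l : ℕ} (h : l ≠ 0) : 2 ^ (10 * rr l) ≤ l := by
  have := Nat.pow_log_le_self 1024 h
  rw [show (1024 : ℕ) = 2 ^ 10 by norm_num, ← pow_mul] at this
  exact this

lemma lt_pow_rr (l : ℕ) : l < 2 ^ (10 * rr l + 10) := by
  have := Nat.lt_pow_succ_log_self (b := 1024) (by norm_num) l
  rw [show (1024 : ℕ) = 2 ^ 10 by norm_num, ← pow_mul] at this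
  exact this

/-- a configuration: for every group a permutation, slot to level -/
def Conf : Type := (r : ℕ) → ℕ → Equiv.Perm (Fin (2 ^ r))

lemma mod_lt' (l r : ℕ) : l % 2 ^ r < 2 ^ r := Nat.mod_lt _ (by positivity)

open Classical in
/-- the exponent chosen for the level `l + 1` -/
noncomputable def KK (σ : Conf) (l : ℕ) : ℕ :=
  if P.r0 ≤ rr l ∧ Good P.y P.lam (rr l) (l / 2 ^ rr l) then
    kk P.y P.q (l + 1)
      (P.UU (rr l) (l / 2 ^ rr l) ((σ (rr l) (l / 2 ^ rr l)).symm ⟨l % 2 ^ rr l, mod_lt' _ _⟩))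
  else 0

/-- the value of the level `l + 1` -/
noncomputable def VV (σ : Conf) (l : ℕ) : ℝ := ww P.y (l + 1) * P.q ^ P.KK σ l

lemma VV_pos (σ : Conf) (l : ℕ) : 0 < P.VV σ l := by
  unfold VV
  have := ww_pos P.hy0 (l + 1)
  have := P.hq0
  positivity

lemma VV_le (σ : Conf) (l : ℕ) : P.VV σ l ≤ ww P.y (l + 1) := by
  unfold VV
  apply mul_le_of_le_one_right (ww_pos P.hy0 _).le
  exact pow_le_one₀ P.hq0.le P.hq1.le

lemma ww_le_one_div (l : ℕ) : ww P.y l ≤ 1 / (l.factorial : ℝ) := by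
  unfold ww
  apply div_le_div_of_nonneg_right _ (by positivity)
  exact pow_le_one₀ P.hy0.le P.hy1

lemma summable_ww : Summable (fun l => ww P.y l) := by
  refine Summable.of_nonneg_of_le (fun l => (ww_pos P.hy0 l).le) (fun l => P.ww_le_one_div l) ?_
  simpa using Real.summable_pow_div_factorial 1

lemma summable_VV (σ : Conf) : Summable (P.VV σ) :=
  Summable.of_nonneg_of_le (fun l => (P.VV_pos σ l).le) (fun l => P.VV_le σ l)
    ((summable_nat_add_iff 1).2 P.summable_ww)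

/-- the sum -/
noncomputable def FF (σ : Conf) : ℝ := 1 + ∑' l, P.VV σ l

/-- tail: two configurations differ little at the levels `l ≥ (g + 1) 2 ^ r` -/
lemma tail_term (σ σ' : Conf) (r g : ℕ) (hg : 2 ^ (9 * r) ≤ g) (j : ℕ) :
    |P.VV σ (j + (g + 1) * 2 ^ r) - P.VV σ' (j + (g + 1) * 2 ^ r)| ≤
      ww P.y ((g + 2) * 2 ^ r) * 2 ^ (2 ^ r) * (1 / 2) ^ j := by
  set l := j + (g + 1) * 2 ^ r with hl
  have hM : 2 ≤ (g + 2) * 2 ^ r := by
    have : 1 ≤ 2 ^ r := Nat.one_le_two_pow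
    nlinarith
  -- bound by `ww (max ..)`
  have hfin : ∀ e : ℕ, l + 1 ≤ e → (g + 2) * 2 ^ r ≤ e →
      ww P.y e ≤ ww P.y ((g + 2) * 2 ^ r) * 2 ^ (2 ^ r) * (1 / 2) ^ j := by
    intro e he1 he2
    rcases lt_or_ge j (2 ^ r) with hj | hj
    · calc ww P.y e ≤ ww P.y ((g + 2) * 2 ^ r) := ww_anti P.hy0 P.hy1 he2
        _ = ww P.y ((g + 2) * 2 ^ r) * 1 := by ring
        _ ≤ ww P.y ((g + 2) * 2 ^ r) * (2 ^ (2 ^ r) * (1 / 2) ^ j) := by
          apply mul_le_mul_of_nonneg_left _ (ww_pos P.hy0 _).le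
          rw [one_div, inv_pow, ← div_eq_mul_inv, le_div_iff₀ (by positivity), one_mul]
          exact pow_le_pow_right₀ (by norm_num) hj.le
        _ = _ := by ring
    · obtain ⟨i, rfl⟩ := Nat.exists_eq_add_of_le hj
      have h1 : l = (g + 2) * 2 ^ r + i := by rw [hl]; ring
      have h2 := ww_add_le P.hy0 P.hy1 2 (by norm_num) ((g + 2) * 2 ^ r) (by exact_mod_cast hM) i
      calc ww P.y e ≤ ww P.y ((g + 2) * 2 ^ r + i) := ww_anti P.hy0 P.hy1 (by omega)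
        _ ≤ ww P.y ((g + 2) * 2 ^ r) * (2⁻¹) ^ i := h2
        _ = _ := by
          rw [pow_add, one_div, inv_pow, inv_pow]
          field_simp
  by_cases hcase : P.r0 ≤ rr l ∧ Good P.y P.lam (rr l) (l / 2 ^ rr l)
  · have hb : ∀ τ : Conf, 0 < P.VV τ l ∧ P.VV τ l ≤ ww P.y ((l / 2 ^ rr l + 1) * 2 ^ rr l) := by
      intro τ
      refine ⟨P.VV_pos τ l, ?_⟩
      unfold VV KK
      rw [if_pos hcase]
      exact (vv_le P.hy0 P.hq0 P.hq1 (l + 1) (P.UU_pos _ _ _)).trans (P.UU_le _ _ _)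
    have hl0 : 2 ^ (10 * r) ≤ l := by
      rw [hl]
      calc 2 ^ (10 * r) = 2 ^ (9 * r) * 2 ^ r := by rw [← pow_add]; congr 1; ring
        _ ≤ (g + 1) * 2 ^ r := Nat.mul_le_mul_right _ (by omega)
        _ ≤ _ := Nat.le_add_left _ _
    have hr : r ≤ rr l := by
      by_contra hcon
      push Not at hcon
      have h1 := lt_pow_rr l
      have h2 : 2 ^ (10 * rr l + 10) ≤ 2 ^ (10 * r) := Nat.pow_le_pow_right (by norm_num) (by omega)
      omega
    have he1 : l + 1 ≤ (l / 2 ^ rr l + 1) * 2 ^ rr l := by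
      have h1 := Nat.div_add_mod l (2 ^ rr l)
      have h2 := mod_lt' l (rr l)
      have h3 : (l / 2 ^ rr l + 1) * 2 ^ rr l = 2 ^ rr l * (l / 2 ^ rr l) + 2 ^ rr l := by ring
      omega
    have he2 : (g + 2) * 2 ^ r ≤ (l / 2 ^ rr l + 1) * 2 ^ rr l := by
      obtain ⟨c, hc⟩ : 2 ^ r ∣ (l / 2 ^ rr l + 1) * 2 ^ rr l :=
        Dvd.dvd.mul_left (pow_dvd_pow 2 hr) _
      have h2 : (g + 1) * 2 ^ r < 2 ^ r * c := by
        rw [← hc]
        omega
      have h3 : g + 1 < c := by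
        rw [mul_comm (2 ^ r) c] at h2
        exact lt_of_mul_lt_mul_right h2 (Nat.zero_le _)
      rw [hc, mul_comm (2 ^ r) c]
      exact Nat.mul_le_mul_right _ h3
    have h1 := hb σ
    have h2 := hb σ'
    have h3 := hfin _ he1 he2
    rw [abs_le]
    constructor <;> linarith
  · have : P.VV σ l = P.VV σ' l := by
      unfold VV KK
      rw [if_neg hcase, if_neg hcase]
    rw [this, sub_self, abs_zero]
    have := ww_pos P.hy0 ((g + 2) * 2 ^ r)
    positivity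

lemma tail_sum (σ σ' : Conf) (r g : ℕ) (hr : 1 ≤ r) (hg : 2 ^ (9 * r) ≤ g) :
    |∑' j, (P.VV σ (j + (g + 1) * 2 ^ r) - P.VV σ' (j + (g + 1) * 2 ^ r))| ≤
      ww P.y ((g + 1) * 2 ^ r) * E r ^ (2 ^ r) := by
  set c := ww P.y ((g + 2) * 2 ^ r) * 2 ^ (2 ^ r) with hc
  have hs : Summable (fun j : ℕ => c * (1 / 2 : ℝ) ^ j) :=
    (summable_geometric_of_lt_one (by norm_num) (by norm_num)).mul_left c
  have h1 := tsum_of_norm_bounded (hs.hasSum) (fun j => by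
    rw [Real.norm_eq_abs]
    exact P.tail_term σ σ' r g hg j)
  rw [Real.norm_eq_abs] at h1
  refine le_trans h1 ?_
  rw [tsum_mul_left, tsum_geometric_of_lt_one (by norm_num) (by norm_num)]
  have h2 : ((2 : ℝ) ^ (10 * r)) ≤ (((g + 1) * 2 ^ r : ℕ) : ℝ) := by
    have : 2 ^ (10 * r) ≤ (g + 1) * 2 ^ r := by
      calc 2 ^ (10 * r) = 2 ^ (9 * r) * 2 ^ r := by rw [← pow_add]; congr 1; ring
        _ ≤ (g + 1) * 2 ^ r := Nat.mul_le_mul_right _ (by omega)
    exact_mod_cast this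
  have h3 := ww_add_le P.hy0 P.hy1 ((2 : ℝ) ^ (10 * r)) (by positivity) ((g + 1) * 2 ^ r) h2 (2 ^ r)
  rw [show (g + 1) * 2 ^ r + 2 ^ r = (g + 2) * 2 ^ r by ring] at h3
  have hu := ww_pos P.hy0 ((g + 1) * 2 ^ r)
  have h4 : ((2 : ℝ) ^ (10 * r))⁻¹ ^ (2 ^ r) * 2 ^ (2 ^ r) * 2 ≤ E r ^ (2 ^ r) := by
    have h5 : ((2 : ℝ) ^ (10 * r))⁻¹ = E r * ((2 : ℝ) ^ (4 * r))⁻¹ := by
      unfold E
      rw [← mul_inv, ← pow_add]
      congr 2
      ring
    rw [h5, mul_pow]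
    have h6 : (((2 : ℝ) ^ (4 * r))⁻¹) ^ (2 ^ r) * 2 ^ (2 ^ r) * 2 ≤ 1 := by
      rw [inv_pow, ← pow_mul, mul_assoc, ← pow_succ, ← div_eq_inv_mul, div_le_one (by positivity)]
      apply pow_le_pow_right₀ (by norm_num)
      have : 1 ≤ 2 ^ r := Nat.one_le_two_pow
      nlinarith
    have hE : 0 < E r ^ (2 ^ r) := pow_pos (E_pos r) _
    calc E r ^ (2 ^ r) * (((2 : ℝ) ^ (4 * r))⁻¹) ^ (2 ^ r) * 2 ^ (2 ^ r) * 2
        = E r ^ (2 ^ r) * ((((2 : ℝ) ^ (4 * r))⁻¹) ^ (2 ^ r) * 2 ^ (2 ^ r) * 2) := by ring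
      _ ≤ E r ^ (2 ^ r) * 1 := by gcongr
      _ = _ := mul_one _
  have h7 : (1 - 1 / 2 : ℝ)⁻¹ = 2 := by norm_num
  rw [h7]
  calc c * 2 ≤ (ww P.y ((g + 1) * 2 ^ r) * ((2 : ℝ) ^ (10 * r))⁻¹ ^ 2 ^ r) * 2 ^ (2 ^ r) * 2 := by
        rw [hc]; gcongr
    _ = ww P.y ((g + 1) * 2 ^ r) * (((2 : ℝ) ^ (10 * r))⁻¹ ^ (2 ^ r) * 2 ^ (2 ^ r) * 2) := by ring
    _ ≤ _ := by gcongr

end Par

end Pool.Agent.R21.EK
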